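import Pool.Agent.Helper13_Eng2.Stmts

/-!
# WTW: the 2-part of the Engel period of unitary groups, odd `q`
-/

set_option autoImplicit false

namespace Pool.Agent.Eng.H9

theorem star_ne (K : Type) [Field K] [Finite K] [StarRing K] (q : ℕ) (h : StarQ K q) :
    ∃ x : K, star x ≠ x := by
  by_contra hcon
  push Not at hcon
  have := Fintype.ofFinite K
  classical
  have h2 := h.two_le
  have hroots : ∀ x : K, x ∈ (Polynomial.X ^ q - Polynomial.X : Polynomial K).roots.toFinset := by
    intro x
    rw [Multiset.mem_toFinset, Polynomial.mem_roots (FiniteField.X_pow_card_sub_X_ne_zero K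
      (by omega)), Polynomial.IsRoot.def]
    have h3 := h.star x
    rw [hcon x] at h3
    simp [← h3]
  have h4 : Fintype.card K ≤ q := by
    calc Fintype.card K = (Finset.univ : Finset K).card := rfl
      _ ≤ (Polynomial.X ^ q - Polynomial.X : Polynomial K).roots.toFinset.card :=
        Finset.card_le_card fun x _ => hroots x
      _ ≤ Multiset.card (Polynomial.X ^ q - Polynomial.X : Polynomial K).roots :=
        Multiset.toFinset_card_le _
      _ ≤ (Polynomial.X ^ q - Polynomial.X : Polynomial K).natDegree :=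
        Polynomial.card_roots' _
      _ = q := FiniteField.X_pow_card_sub_X_natDegree_eq K (by omega)
  have h5 := h.card
  rw [Nat.card_eq_fintype_card] at h5
  nlinarith

theorem wtw (hpar : WparStmt) (hns : WnsStmt) (hsq : WsqStmt) (hmon : HmonStmt) : WtwStmt := by
  intro K _ _ _ q m e n hq h2 hm hn he
  apply hmon K (2 * m + 1) n (2 ^ e) (star_ne K q hq) hn
  intro d hd hlaw
  have hq2 := hq.two_le
  obtain ⟨p, hp⟩ := CharP.exists K
  have hpp : p.Prime := CharP.char_is_prime K p
  have : Fact p.Prime := ⟨hpp⟩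
  have : NeZero m := ⟨by omega⟩
  have hcK := hq.card
  -- q is odd
  have hodd : Odd q := by
    rw [← Nat.not_even_iff_odd]
    intro hev
    apply h2
    have h3 : ((Nat.card K : ℕ) : K) = 0 := by
      have := Fintype.ofFinite K
      rw [Nat.card_eq_fintype_card]
      exact FiniteField.cast_card_eq_zero K
    rw [hcK] at h3
    push_cast at h3
    have h4 : (q : K) = 0 := pow_eq_zero_iff (two_ne_zero) |>.1 h3
    have h5 : p ∣ q := (CharP.cast_eq_zero_iff K p q).1 h4
    have h6 : p ∣ Nat.card K := by rw [hcK]; exact dvd_pow h5 (by norm_num)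
    have h7 : 2 ∣ q ^ 2 := dvd_pow hev.two_dvd (by norm_num)
    -- card K is a power of p
    obtain ⟨k, hk⟩ : ∃ k : ℕ+, Nat.card K = p ^ (k : ℕ) := by
      have := Fintype.ofFinite K
      obtain ⟨k, _, hk⟩ := FiniteField.card K p
      exact ⟨k, by rw [Nat.card_eq_fintype_card]; exact hk⟩
    rw [← hcK, hk] at h7
    have h8 := (Nat.prime_dvd_prime_iff_eq Nat.prime_two hpp).1 (Nat.prime_two.dvd_of_dvd_pow h7)
    have h9 : ((2 : ℕ) : K) = 0 := by rw [h8]; exact CharP.cast_eq_zero K p
    exact_mod_cast h9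
  set L := FiniteField.Extension K p m with hL
  have hcL : Nat.card L = Nat.card K ^ m := FiniteField.natCard_extension K p m
  have hfr : Module.finrank K L = m := FiniteField.finrank_extension K p m
  have hfinL : Finite L := Module.finite_of_finite K
  have hcL2 : Nat.card L = q ^ (2 * m) := by rw [hcL, hcK, ← pow_mul]
  have h2L : (2 : L) ≠ 0 := by
    intro h
    apply h2
    apply (algebraMap K L).injective
    rw [map_zero, map_ofNat]
    exact h
  have hm1 : IsSquare (-1 : L) := by
    have h1 : IsSquare (-1 : K) := by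
      have := Fintype.ofFinite K
      rw [FiniteField.isSquare_neg_one_iff, ← Nat.card_eq_fintype_card, hcK]
      obtain ⟨k, hk⟩ := hodd
      have h5 : q ^ 2 = 4 * (k ^ 2 + k) + 1 := by rw [hk]; ring
      omega
    have := h1.map (algebraMap K L)
    rwa [map_neg, map_one] at this
  obtain ⟨x, hx⟩ : ∃ x : L, ¬ IsSquare x := by
    have := Fintype.ofFinite L
    apply FiniteField.exists_nonsquare
    intro h
    apply h2L
    have h4 : ((ringChar L : ℕ) : L) = 0 := ringChar.Nat.cast_ringChar
    rw [h] at h4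
    exact_mod_cast h4
  have hx0 : x ≠ 0 := by
    rintro rfl
    exact hx (IsSquare.zero)
  have hNx : Algebra.norm K x ≠ 0 := Algebra.norm_ne_zero_iff.2 hx0
  obtain ⟨k, hk⟩ := hodd
  have hq1 : q - 1 = k + k := by omega
  -- tau is a nonsquare
  have htau : ¬ IsSquare (tauW K L q x) := by
    rintro ⟨s, hs⟩
    apply hx
    unfold tauW at hs
    rw [hq1, pow_add, map_mul] at hs
    set t := algebraMap K L (Algebra.norm K x ^ k) with ht
    have ht0 : t ≠ 0 := by
      rw [ht, Ne, map_eq_zero]
      exact pow_ne_zero _ hNx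
    have hs0 : s ≠ 0 := by
      rintro rfl
      rw [mul_zero] at hs
      have := mul_ne_zero (inv_ne_zero hx0) (mul_ne_zero ht0 ht0)
      exact this hs
    refine ⟨t * s⁻¹, ?_⟩
    have h1 : t * t = x * (s * s) := by
      rw [← hs, ← mul_assoc, mul_inv_cancel₀ hx0, one_mul]
    have h3 : t * s⁻¹ * (t * s⁻¹) = (t * t) * (s * s)⁻¹ := by rw [mul_inv]; ring
    rw [h3, h1, mul_assoc, mul_inv_cancel₀ (mul_ne_zero hs0 hs0), mul_one]
  have htau0 : tauW K L q x ≠ 0 := by
    intro h
    rw [h] at htau
    exact htau IsSquare.zero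
  have hinv : tauW K L q x⁻¹ = (tauW K L q x)⁻¹ := by
    have h1 : Algebra.norm K x⁻¹ = (Algebra.norm K x)⁻¹ := by
      apply eq_inv_of_mul_eq_one_left
      rw [← map_mul, inv_mul_cancel₀ hx0, map_one]
    unfold tauW
    rw [h1, inv_pow, map_inv₀, mul_inv]
  have hdvd : 2 ^ e ∣ Nat.card L - 1 := by rw [hcL2]; exact he
  have hfin : FiniteDimensional K L := inferInstance
  have key : ∀ z : L, z ≠ 0 → ¬ IsSquare (tauW K L q z - 1) → 2 ^ e ∣ d := by
    intro z hz hnsq
    obtain ⟨r, hr⟩ := hpar K L q m z hq h2 hm hfr hz d hlaw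
    have hu0 : tauW K L q z - 1 ≠ 0 := by
      intro h
      rw [h] at hnsq
      exact hnsq IsSquare.zero
    have hu : (tauW K L q z - 1) ^ d = 1 := by
      rw [pow_add] at hr
      have h5 : (tauW K L q z - 1) ^ r ≠ 0 := pow_ne_zero _ hu0
      exact mul_left_cancel₀ h5 (by rw [hr, mul_one])
    exact hns L e d (tauW K L q z - 1) hd hnsq hu hdvd
  rcases hsq L (tauW K L q x) hm1 htau with h | h
  · exact key x hx0 h
  · apply key x⁻¹ (inv_ne_zero hx0)
    rw [hinv]
    exact h

end Pool.Agent.Eng.H9
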