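import Pool.Agent.Helper6_Eng.Stmts

/-!
# FLIFT: lifting of elements of prime power order.  LTR: transfer from `PSL(V)` to `PSL(n,F)`.
-/

set_option autoImplicit false

namespace Pool.Agent.Eng.H9

theorem flift : LiftStmt := by
  intro G _ _ Z _ p k hp ⟨y, hy⟩
  obtain ⟨g0, rfl⟩ := QuotientGroup.mk_surjective y
  have hN : orderOf g0 ≠ 0 := (orderOf_pos g0).ne'
  obtain ⟨a, m, hm, hN2⟩ := Nat.exists_eq_pow_mul_and_not_dvd hN p hp.ne_one
  have hm0 : m ≠ 0 := by
    rintro rfl
    exact hm (dvd_zero p)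
  have hcop : Nat.Coprime p m := (Nat.Prime.coprime_iff_not_dvd hp).mpr hm
  refine ⟨g0 ^ m, a, ?_, ?_⟩
  · rw [orderOf_pow' g0 hm0, hN2, Nat.gcd_eq_right (Dvd.intro_left _ rfl),
      Nat.mul_div_cancel _ (Nat.pos_of_ne_zero hm0)]
  · rw [QuotientGroup.mk_pow, orderOf_pow' _ hm0, hy, (Nat.Coprime.pow_left k hcop).gcd_eq_one,
      Nat.div_one]

theorem map_center_eq {G H : Type} [Group G] [Group H] (e : G ≃* H) :
    (Subgroup.center G).map (e : G →* H) = Subgroup.center H := by
  ext h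
  rw [Subgroup.mem_map, Subgroup.mem_center_iff]
  constructor
  · rintro ⟨g, hg, rfl⟩ k
    rw [Subgroup.mem_center_iff] at hg
    have h1 := congrArg e (hg (e.symm k))
    rw [map_mul, map_mul, e.apply_symm_apply] at h1
    exact h1
  · intro h1
    refine ⟨e.symm h, ?_, e.apply_symm_apply h⟩
    rw [Subgroup.mem_center_iff]
    intro g
    apply e.injective
    rw [map_mul, map_mul, e.apply_symm_apply]
    exact h1 (e g)

theorem ltr : LtrStmt := by
  intro F V _ _ _ _ n hn
  let b : Module.Basis (Fin n) F V := Module.finBasisOfFinrankEq F V hn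
  let e : SpecialLinearGroup F V ≃* Matrix.SpecialLinearGroup (Fin n) F :=
    (Matrix.SpecialLinearGroup.toLin_equiv b).symm
  exact ⟨QuotientGroup.congr _ _ e (map_center_eq e)⟩

end Pool.Agent.Eng.H9
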