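import Pool.Agent.Helper99_Eng3.Stmts

/-!
# Squad ENG, part 3, module OCEV

The even case is done directly on the big field `K` (`[K:F] = 2m = 4n`). Let `φ x = x^(q^n)`, an
automorphism of `K` of order `4`. The group `SL₂(K₀)`, `K₀ = Fix φ²`, written as the maps
`x ↦ a x + b φ²(x)` with `a φ²(a) - b φ²(b) = 1`, acts on `K` by
`Z_{a,b}(t) = a φ(a) t + φ(a) φ²(b) φ(t) + φ²(b) φ³(b) φ²(t) + a φ³(b) φ³(t)`
and preserves `t φ²(t) - φ(t) φ³(t)` (hermitian `2 × 2` matrices in disguise).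
-/

set_option autoImplicit false

namespace Pool.Agent.Eng.H9

open Polynomial
open scoped commutatorElement

section Z

variable {F K : Type} [Field F] [Field K] [Algebra F K] (φ : K →ₐ[F] K)

/-- the action of `SL₂(K₀)` -/
noncomputable def Zm (a b : K) : K →ₗ[F] K where
  toFun t := a * φ a * t + φ a * φ (φ b) * φ t + φ (φ b) * φ (φ (φ b)) * φ (φ t)
    + a * φ (φ (φ b)) * φ (φ (φ t))
  map_add' s t := by
    simp only [map_add]
    ring
  map_smul' c t := by
    simp only [RingHom.id_apply, Algebra.smul_def, map_mul, AlgHom.commutes]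
    ring

lemma Zm_apply (a b t : K) : Zm φ a b t = a * φ a * t + φ a * φ (φ b) * φ t
    + φ (φ b) * φ (φ (φ b)) * φ (φ t) + a * φ (φ (φ b)) * φ (φ (φ t)) := rfl

variable {φ} (h4 : ∀ x, φ (φ (φ (φ x))) = x)

include h4

lemma Zm_comp (a b a' b' t : K) : Zm φ a b (Zm φ a' b' t) =
    Zm φ (a' * a + b' * φ (φ b)) (a' * b + b' * φ (φ a)) t := by
  simp only [Zm_apply, map_add, map_mul, h4]
  ring

omit h4 in
lemma Zm_one (t : K) : Zm φ 1 0 t = t := by
  simp [Zm_apply]

lemma Zm_det (a b t : K) (h : a * φ (φ a) - b * φ (φ b) = 1) :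
    Zm φ a b t * φ (φ (Zm φ a b t)) - φ (Zm φ a b t) * φ (φ (φ (Zm φ a b t)))
      = t * φ (φ t) - φ t * φ (φ (φ t)) := by
  have h' : φ a * φ (φ (φ a)) - φ b * φ (φ (φ b)) = 1 := by
    rw [← map_mul, ← map_mul, ← map_sub, h, map_one]
  have key : Zm φ a b t * φ (φ (Zm φ a b t)) - φ (Zm φ a b t) * φ (φ (φ (Zm φ a b t)))
      = (a * φ (φ a) - b * φ (φ b)) * (φ a * φ (φ (φ a)) - φ b * φ (φ (φ b)))
        * (t * φ (φ t) - φ t * φ (φ (φ t))) := by
    simp only [Zm_apply, map_add, map_mul, h4]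
    ring
  rw [key, h, h']
  ring

/-- invertible maps -/
noncomputable def Ze (a b : K) (h : a * φ (φ a) - b * φ (φ b) = 1) : K ≃ₗ[F] K :=
  LinearEquiv.ofLinearMap (Zm φ a b) (Zm φ (φ (φ a)) (-b))
    (by
      ext t
      rw [LinearMap.comp_apply, Zm_comp h4, LinearMap.id_apply]
      have e1 : φ (φ a) * a + -b * φ (φ b) = 1 := by rw [← h]; ring
      have e2 : φ (φ a) * b + -b * φ (φ a) = 0 := by ring
      rw [e1, e2, Zm_one])
    (by
      ext t
      rw [LinearMap.comp_apply, Zm_comp h4, LinearMap.id_apply]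
      have e1 : a * φ (φ a) + b * φ (φ (-b)) = 1 := by
        rw [← h, map_neg, map_neg]; ring
      have e2 : a * -b + b * φ (φ (φ (φ a))) = 0 := by rw [h4]; ring
      rw [e1, e2, Zm_one])

lemma Ze_apply (a b : K) (h : a * φ (φ a) - b * φ (φ b) = 1) (t : K) :
    Ze h4 a b h t = Zm φ a b t := rfl

end Z

/-- multiplication by a nonzero element -/
noncomputable def Me (F : Type) {K : Type} [Field F] [Field K] [Algebra F K] (u : K)
    (hu : u ≠ 0) : K ≃ₗ[F] K :=
  LinearEquiv.ofLinearMap (LinearMap.mulLeft F u) (LinearMap.mulLeft F u⁻¹)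
    (by
      ext t
      simp [hu])
    (by
      ext t
      simp [hu])

section Me

variable {F K : Type} [Field F] [Field K] [Algebra F K]

lemma Me_apply (u : K) (hu : u ≠ 0) (t : K) : Me F u hu t = u * t := rfl

lemma Me_pow (u : K) (hu : u ≠ 0) (n : ℕ) (t : K) : ((Me F u hu) ^ n) t = u ^ n * t := by
  induction n generalizing t with
  | zero => simp
  | succ n ih =>
    rw [pow_succ, LinearEquiv.mul_apply, ih, Me_apply, pow_succ]
    ring

end Me


/-- norms are surjective -/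
lemma exists_norm (K : Type) [Field K] [Finite K] (s : ℕ) (hs : 2 ≤ s) (hc : Nat.card K = s ^ 2)
    (y : K) (hy : y ^ s = y) : ∃ x : K, x ^ (1 + s) = y := by
  by_cases h0 : y = 0
  · exact ⟨0, by rw [h0, zero_pow (by omega)]⟩
  · obtain ⟨g, hg⟩ := IsCyclic.exists_monoid_generator (α := Kˣ)
    obtain ⟨j, hj⟩ := Submonoid.mem_powers_iff _ _ |>.1 (hg (Units.mk0 y h0))
    have hgo : orderOf g = (s + 1) * (s - 1) := by
      have h1 : orderOf g = Nat.card Kˣ := by
        refine orderOf_eq_card_of_forall_mem_zpowers fun x => ?_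
        obtain ⟨i, hi⟩ := Submonoid.mem_powers_iff _ _ |>.1 (hg x)
        exact ⟨i, by simpa using hi⟩
      rw [h1, Nat.card_units, hc]
      have : s ^ 2 = (s + 1) * (s - 1) + 1 := by
        obtain ⟨t, rfl⟩ : ∃ t, s = t + 1 := ⟨s - 1, by omega⟩
        simp only [Nat.add_sub_cancel]
        ring
      omega
    have h2 : y ^ (s - 1) = 1 := by
      have h3 : y ^ (s - 1) * y = 1 * y := by
        rw [← pow_succ, Nat.sub_add_cancel (by omega), hy, one_mul]
      exact mul_right_cancel₀ h0 h3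
    have h3 : g ^ (j * (s - 1)) = 1 := by
      rw [pow_mul, hj]
      ext
      simpa using h2
    have h4 := orderOf_dvd_of_pow_eq_one h3
    rw [hgo] at h4
    have h5 : s + 1 ∣ j := Nat.dvd_of_mul_dvd_mul_right (by omega) h4
    obtain ⟨i, hi⟩ := h5
    refine ⟨((g ^ i : Kˣ) : K), ?_⟩
    have h6 : (g ^ i) ^ (1 + s) = Units.mk0 y h0 := by
      rw [← hj, hi, ← pow_mul]
      congr 1
      ring
    have h7 := congrArg Units.val h6
    simpa using h7

theorem ocev (hObr : ObrStmt) : OcevStmt := by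
  intro F K _ _ _ _ _ Q m p k lam hm hme hfin hQ _ hlam hp hp2 hk hord
  have : Fintype F := Fintype.ofFinite F
  obtain ⟨n, hn⟩ := hme
  have : Finite K := Module.finite_of_finite F
  have hn1 : 1 ≤ n := by omega
  have hqF : Fintype.card F = Nat.card F := Fintype.card_eq_nat_card
  set q := Nat.card F with hq
  have hq2 : 2 ≤ q := by
    rw [← hqF]
    exact Fintype.one_lt_card
  have hcard : Nat.card K = q ^ (2 * m) := by
    rw [Module.natCard_eq_pow_finrank (K := F) (V := K), hfin]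
  -- Frobenius powers
  have hψ : ∀ (i : ℕ) (x : K), ((FiniteField.frobeniusAlgHom F K) ^ i) x = x ^ (q ^ i) := by
    intro i x
    rw [AlgHom.coe_pow, FiniteField.coe_frobeniusAlgHom, pow_iterate, hqF]
  set φ : K →ₐ[F] K := (FiniteField.frobeniusAlgHom F K) ^ n with hφdef
  have hφ : ∀ x, φ x = x ^ (q ^ n) := fun x => hψ n x
  have hφ2 : ∀ x, φ (φ x) = x ^ (q ^ m) := by
    intro x
    rw [hφ, hφ, ← pow_mul, ← pow_add, ← hn]
  have h4 : ∀ x, φ (φ (φ (φ x))) = x := by
    intro x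
    rw [hφ2, hφ2, ← pow_mul, ← pow_add, ← two_mul, ← hcard]
    have : Fintype K := Fintype.ofFinite K
    rw [Nat.card_eq_fintype_card]
    exact FiniteField.pow_card x
  have hinj : Function.Injective (algebraMap F K) := (algebraMap F K).injective
  -- values of `Q`
  have hQ1 : ∀ y : K, algebraMap F K (Q y) =
      ∑ i ∈ Finset.range n, (y * φ (φ y) + φ (y * φ (φ y))) ^ (q ^ i) := by
    intro y
    rw [hQ y, hn, Finset.sum_range_add, ← Finset.sum_add_distrib]
    refine Finset.sum_congr rfl fun i _ => ?_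
    have e1 : y * φ (φ y) = y ^ (1 + q ^ m) := by
      rw [hφ2, pow_add, pow_one]
    have e2 : (y ^ (1 + q ^ m) + (y ^ (1 + q ^ m)) ^ (q ^ n)) ^ (q ^ i) =
        (y ^ (1 + q ^ m)) ^ (q ^ i) + ((y ^ (1 + q ^ m)) ^ (q ^ n)) ^ (q ^ i) := by
      rw [← hψ i, map_add, hψ, hψ]
    rw [← hn, e1, hφ, e2, ← pow_mul (y ^ (1 + q ^ m)) (q ^ n) (q ^ i), ← pow_add q]
  have hQ2 : ∀ y z : K, y * φ (φ y) + φ (y * φ (φ y)) = z * φ (φ z) + φ (z * φ (φ z)) →
      Q y = Q z := by
    intro y z h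
    apply hinj
    rw [hQ1, hQ1, h]
  -- the element `lam`
  have hpk0 : p ^ k ≠ 0 := pow_ne_zero _ hp.ne_zero
  have hpk1 : p ^ k ≠ 1 := by
    intro h
    have := Nat.one_lt_pow (by omega : k ≠ 0) hp.one_lt
    omega
  have hlam0 : lam ≠ 0 := by
    rintro rfl
    rw [zero_pow (by positivity)] at hlam
    exact zero_ne_one hlam
  have hN : lam * φ (φ lam) = 1 := by
    rw [hφ2, ← pow_succ', hlam]
  have hN1 : φ lam * φ (φ (φ lam)) = 1 := by
    rw [← map_mul, hN, map_one]
  have hpo : Odd p := hp.odd_of_ne_two hp2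
  have hdvd : ∀ j : ℕ, lam ^ j = 1 → p ^ k ∣ j := fun j hj => by
    rw [← hord]; exact orderOf_dvd_of_pow_eq_one hj
  have hpq : p ∣ q ^ m + 1 := by
    have h1 : p ^ k ∣ q ^ m + 1 := hdvd _ hlam
    exact (dvd_pow_self p (by omega)).trans h1
  have hqm : q ^ m = q ^ n * q ^ n := by rw [hn, pow_add]
  have hcop1 : ∀ j : ℕ, p ^ k ∣ (1 + q ^ n) * j → p ^ k ∣ j := by
    intro j hj
    refine Nat.Coprime.dvd_of_dvd_mul_left ?_ hj
    refine Nat.Coprime.pow_left k ((Nat.Prime.coprime_iff_not_dvd hp).2 fun h => ?_)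
    obtain ⟨c, hc⟩ := h
    have h2 : (p : ℤ) ∣ 2 := by
      obtain ⟨e, he⟩ := hpq
      have he' : (q : ℤ) ^ n * (q : ℤ) ^ n + 1 = p * e := by
        rw [hqm] at he
        exact_mod_cast he
      have hc' : 1 + (q : ℤ) ^ n = p * c := by exact_mod_cast hc
      exact ⟨e - c * ((q : ℤ) ^ n - 1), by linear_combination he' - ((q : ℤ) ^ n - 1) * hc'⟩
    have h3 : p ∣ 2 := by exact_mod_cast h2
    exact hp2 ((Nat.prime_dvd_prime_iff_eq hp Nat.prime_two).1 h3)
  have hcop2 : ∀ j : ℕ, p ^ k ∣ 2 * j → p ^ k ∣ j := by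
    intro j hj
    refine Nat.Coprime.dvd_of_dvd_mul_left ?_ hj
    exact Nat.Coprime.pow_left k ((Nat.coprime_primes hp Nat.prime_two).2 hp2)
  have hlam2 : lam ^ 2 ≠ 1 := by
    intro h
    have h1 := hcop2 1 (by simpa using hdvd 2 h)
    exact hpk1 (Nat.dvd_one.1 h1)
  have hp3 : p ≠ 3 := by
    rintro rfl
    rw [hqm] at hpq
    have h1 : (q ^ n * q ^ n + 1) % 3 = 0 := Nat.mod_eq_zero_of_dvd hpq
    have h2 : q ^ n % 3 = 0 ∨ q ^ n % 3 = 1 ∨ q ^ n % 3 = 2 := by omega
    rcases h2 with h2 | h2 | h2 <;> simp [Nat.add_mod, Nat.mul_mod, h2] at h1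
  -- the pair `(a, b)`
  have hl2 : 1 - lam ^ 2 ≠ 0 := fun h => hlam2 (by linear_combination -h)
  set mu := φ (φ lam) with hmu
  have hmu0 : mu ≠ 0 := right_ne_zero_of_mul_eq_one hN
  have hmumu : φ (φ mu) = lam := h4 lam
  obtain ⟨a, ha⟩ : ∃ a : K, a = mu / (1 - lam ^ 2) := ⟨_, rfl⟩
  have ha1 : a * (1 - lam ^ 2) = mu := by rw [ha]; field_simp
  have ha0 : a ≠ 0 := by rw [ha]; exact div_ne_zero hmu0 hl2
  set a2 := φ (φ a) with ha2
  have ha3 : a2 * (1 - mu ^ 2) = lam := by
    have h := congrArg (fun x => φ (φ x)) ha1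
    simp only [map_mul, map_sub, map_one, map_pow] at h
    rw [hmumu] at h
    exact h
  have hm2 : 1 - mu ^ 2 ≠ 0 := by
    intro h
    apply hl2
    have h1 : (1 - mu ^ 2) * lam ^ 2 = 0 := by rw [h, zero_mul]
    linear_combination -h1 - (lam * mu + 1) * hN
  have hprod : (1 - lam ^ 2) * (1 - mu ^ 2) = 2 - lam ^ 2 - mu ^ 2 := by
    linear_combination (lam * mu + 1) * hN
  have tr1 : lam * a + mu * a2 = 1 := by
    have h : (lam * a + mu * a2 - 1) * ((1 - lam ^ 2) * (1 - mu ^ 2)) = 0 := by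
      linear_combination lam * (1 - mu ^ 2) * ha1 + mu * (1 - lam ^ 2) * ha3 - hprod
        + (2 - lam ^ 2 - mu ^ 2) * hN
    rcases mul_eq_zero.1 h with h1 | h1
    · linear_combination h1
    · exact absurd h1 (mul_ne_zero hl2 hm2)
  have ha22 : φ (φ a2) = a := h4 a
  -- existence of `b`
  have hs2 : 2 ≤ q ^ m := le_trans hq2 (Nat.le_self_pow (by omega) q)
  have hcard2 : Nat.card K = (q ^ m) ^ 2 := by rw [hcard, ← pow_mul, mul_comm]
  obtain ⟨b, hb⟩ := exists_norm K (q ^ m) hs2 hcard2 (a * a2 - 1) (by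
    rw [← hφ2, map_sub, map_sub, map_mul, map_mul, ← ha2, ha22, map_one, map_one, mul_comm])
  have hb1 : b * φ (φ b) = a * a2 - 1 := by
    rw [← hb, pow_add, pow_one, hφ2]
  have hb0 : b ≠ 0 := by
    intro h0
    rw [h0, zero_mul] at hb1
    have h1 : (1 - lam ^ 2) * (1 - mu ^ 2) = 1 := by
      linear_combination ((1 - lam ^ 2) * (1 - mu ^ 2)) * hb1 + a2 * (1 - mu ^ 2) * ha1
        + mu * ha3 + hN
    have h2 : lam ^ 2 + mu ^ 2 = 1 := by linear_combination hprod - h1
    have h3 : lam ^ 4 - lam ^ 2 + 1 = 0 := by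
      linear_combination lam ^ 2 * h2 - (lam * mu + 1) * hN
    have h5 : lam ^ 12 = 1 := by
      linear_combination (lam ^ 6 - 1) * (lam ^ 2 + 1) * h3
    have h6 : p ∣ 12 := (dvd_pow_self p (by omega)).trans (hdvd 12 h5)
    have h7 : p ∣ 2 * (2 * 3) := by simpa using h6
    rcases (Nat.Prime.dvd_mul hp).1 h7 with h8 | h8
    · exact hp2 ((Nat.prime_dvd_prime_iff_eq hp Nat.prime_two).1 h8)
    · rcases (Nat.Prime.dvd_mul hp).1 h8 with h9 | h9
      · exact hp2 ((Nat.prime_dvd_prime_iff_eq hp Nat.prime_two).1 h9)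
      · exact hp3 ((Nat.prime_dvd_prime_iff_eq hp Nat.prime_three).1 h9)
  have hdet : a * φ (φ a) - b * φ (φ b) = 1 := by rw [hb1, ← ha2]; ring
  -- the twist
  set e : K := (mu - lam) * φ (mu - lam) with he
  have hde : φ (φ (mu - lam)) = -(mu - lam) := by
    rw [map_sub, map_sub, hmumu, ← hmu]; ring
  have hφe : φ e = -e := by
    rw [he, map_mul, hde]; ring
  have hml : mu - lam ≠ 0 := by
    intro h
    apply hlam2
    linear_combination hN - lam * h
  have he0 : e ≠ 0 := mul_ne_zero hml (by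
    intro h
    apply hml
    have : φ (φ (mu - lam)) = 0 := by rw [h, map_zero]
    rw [hde] at this
    exact neg_eq_zero.1 this)
  obtain ⟨x, hx⟩ := exists_norm K (q ^ m) hs2 hcard2 e (by
    rw [← hφ2, hφe, map_neg, hφe, neg_neg])
  have hx1 : x * φ (φ x) = e := by
    rw [← hx, pow_add, pow_one, hφ2]
  have hx0 : x ≠ 0 := by
    rintro rfl
    rw [zero_mul] at hx1
    exact he0 hx1.symm
  -- the isometries
  set nu : K := lam * φ lam with hnu
  have hnu0 : nu ≠ 0 := mul_ne_zero hlam0 (left_ne_zero_of_mul_eq_one hN1)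
  have hnuN : nu * φ (φ nu) = 1 := by
    rw [hnu, map_mul, map_mul, ← hmu]
    linear_combination φ lam * φ mu * hN + hN1
  have hMs : ∀ v : K, (Me F x hx0)⁻¹ v = x⁻¹ * v := fun v => rfl
  set w : K ≃ₗ[F] K := Me F nu hnu0 with hw
  have hwv : ∀ v, w v = nu * v := fun v => rfl
  set z : K ≃ₗ[F] K := Me F x hx0 * Ze h4 a b hdet * (Me F x hx0)⁻¹ with hz
  have hzv : ∀ v, z v = x * Zm φ a b (x⁻¹ * v) := fun v => rfl
  have hzt : ∀ t, z (x * t) = x * Zm φ a b t := by
    intro t
    rw [hzv, inv_mul_cancel_left₀ hx0]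
  have hZl : ∀ t, Zm φ lam 0 t = nu * t := by
    intro t
    rw [Zm_apply, hnu]
    simp
  have hzO : z ∈ OV Q := by
    intro v
    obtain ⟨t, rfl⟩ : ∃ t, v = x * t := ⟨x⁻¹ * v, (mul_inv_cancel_left₀ hx0 v).symm⟩
    rw [hzt]
    apply hQ2
    have h1 : ∀ u : K, x * u * φ (φ (x * u)) + φ (x * u * φ (φ (x * u))) =
        e * (u * φ (φ u) - φ u * φ (φ (φ u))) := by
      intro u
      have h2 : x * u * φ (φ (x * u)) = e * (u * φ (φ u)) := by
        rw [map_mul, map_mul, ← hx1]; ring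
      rw [h2, map_mul, hφe, map_mul]
      ring
    rw [h1, h1, Zm_det h4 a b t hdet]
  have hbraid : z * w * z = w * z * w := by
    ext v
    obtain ⟨t, rfl⟩ : ∃ t, v = x * t := ⟨x⁻¹ * v, (mul_inv_cancel_left₀ hx0 v).symm⟩
    change z (w (z (x * t))) = w (z (w (x * t)))
    rw [hzt, hwv, hwv, hwv, mul_left_comm nu x, mul_left_comm nu x, hzt, hzt, mul_left_comm nu x]
    congr 1
    rw [← hZl, ← hZl, ← hZl, Zm_comp h4, Zm_comp h4, Zm_comp h4, Zm_comp h4]
    have e1 : a * (lam * a + 0 * φ (φ b)) + b * φ (φ (lam * b + 0 * φ (φ a))) =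
        lam * (a * lam + b * φ (φ 0)) + 0 * φ (φ (a * 0 + b * φ (φ lam))) := by
      simp only [zero_mul, add_zero, map_zero, map_mul, mul_zero, ← hmu]
      linear_combination mu * hb1 + a * tr1 + ha1
    have e2 : a * (lam * b + 0 * φ (φ a)) + b * φ (φ (lam * a + 0 * φ (φ b))) =
        lam * (a * 0 + b * φ (φ lam)) + 0 * φ (φ (a * lam + b * φ (φ 0))) := by
      simp only [zero_mul, add_zero, map_mul, mul_zero, zero_add, ← hmu, ← ha2]
      linear_combination b * tr1 - b * hN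
    rw [e1, e2]
  -- `w` is a commutator
  have hMO : ∀ (r : K) (hr : r ≠ 0), r * φ (φ r) = 1 → Me F r hr ∈ OV Q := by
    intro r hr h v
    rw [Me_apply]
    apply hQ2
    have h2 : r * v * φ (φ (r * v)) = v * φ (φ v) := by
      rw [map_mul, map_mul]
      linear_combination v * φ (φ v) * h
    rw [h2]
  set sg : K ≃ₗ[F] K := LinearEquiv.ofLinearMap (φ.comp φ).toLinearMap (φ.comp φ).toLinearMap
    (by ext t; exact h4 t) (by ext t; exact h4 t) with hsg
  have hsv : ∀ v, sg v = φ (φ v) := fun v => rfl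
  have hsv' : ∀ v, sg⁻¹ v = φ (φ v) := fun v => rfl
  have hsO : sg ∈ OV Q := by
    intro v
    rw [hsv]
    apply hQ2
    rw [h4, mul_comm]
  have hwO : w ∈ OmV Q := by
    obtain ⟨c, hc⟩ := hpo.pow (n := k)
    have hr0 : nu ^ (c + 1) ≠ 0 := pow_ne_zero _ hnu0
    have h1 : nu ^ (c + 1) * φ (φ (nu ^ (c + 1))) = 1 := by
      rw [map_pow, map_pow, ← mul_pow, hnuN, one_pow]
    have h2 : w = ⁅Me F (nu ^ (c + 1)) hr0, sg⁆ := by
      ext v
      rw [commutatorElement_def]
      change nu * v = nu ^ (c + 1) * φ (φ ((nu ^ (c + 1))⁻¹ * φ (φ v)))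
      rw [map_mul, map_mul, h4, map_inv₀, map_inv₀]
      have h3 : (φ (φ (nu ^ (c + 1))))⁻¹ = nu ^ (c + 1) := inv_eq_of_mul_eq_one_left h1
      rw [h3, ← mul_assoc, ← pow_add]
      have h5 : nu ^ (p ^ k) = 1 := by
        rw [hnu, mul_pow, ← map_pow, ← hord, pow_orderOf_eq_one, map_one, one_mul]
      have h6 : c + 1 + (c + 1) = p ^ k + 1 := by omega
      rw [h6, pow_succ, h5, one_mul]
    rw [h2]
    exact Subgroup.commutator_mem_commutator (hMO _ hr0 h1) hsO
  refine hObr F K Q w hwO z hzO hbraid (p ^ k) fun d c hd hc => ?_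
  -- the conclusion
  set ka : K := nu ^ (2 * d) with hka
  have hka0 : ka ≠ 0 := pow_ne_zero _ hnu0
  set c' : K := algebraMap F K c with hc'
  have hrel : ∀ t : K, Zm φ a b (ka * t) = c' * ka * Zm φ a b t := by
    intro t
    have h := hc (x * t)
    rw [hw, Me_pow, Me_pow, ← hka, mul_left_comm ka x t, hzt, hzt, Algebra.smul_def, ← hc'] at h
    apply mul_left_cancel₀ hx0
    rw [h]
    ring
  set s : ℕ := q ^ n with hs
  have hs3 : 2 ≤ s := le_trans hq2 (Nat.le_self_pow (by omega) q)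
  set B0 : K := a * φ a * (ka - c' * ka) with hB0
  set B1 : K := φ a * φ (φ b) * (φ ka - c' * ka) with hB1
  set B2 : K := φ (φ b) * φ (φ (φ b)) * (φ (φ ka) - c' * ka) with hB2
  set B3 : K := a * φ (φ (φ b)) * (φ (φ (φ ka)) - c' * ka) with hB3
  have hpol : (C B0 * X ^ 1 + C B1 * X ^ s + C B2 * X ^ (s * s) + C B3 * X ^ (s * s * s) : K[X])
      = 0 := by
    have : Fintype K := Fintype.ofFinite K
    apply eq_zero_of_natDegree_lt_card_of_eval_eq_zero' _ Finset.univ
    · intro t _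
      simp only [eval_add, eval_mul, eval_C, eval_pow, eval_X]
      have h := hrel t
      rw [Zm_apply, Zm_apply] at h
      simp only [map_mul] at h
      have e1 : φ t = t ^ s := hφ t
      have e2 : φ (φ t) = t ^ (s * s) := by rw [hφ, hφ, ← pow_mul]
      have e3 : φ (φ (φ t)) = t ^ (s * s * s) := by rw [hφ, hφ, hφ, ← pow_mul, ← pow_mul, mul_assoc]
      rw [← e1, ← e2, ← e3, hB0, hB1, hB2, hB3]
      linear_combination h
    · rw [Finset.card_univ, ← Nat.card_eq_fintype_card, hcard]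
      have hle : (C B0 * X ^ 1 + C B1 * X ^ s + C B2 * X ^ (s * s) + C B3 * X ^ (s * s * s) :
          K[X]).natDegree ≤ s * s * s := by
        have i1 : s ≤ s * s := Nat.le_mul_of_pos_left s (by omega)
        have i2 : s * s ≤ s * s * s := Nat.le_mul_of_pos_right (s * s) (by omega)
        refine natDegree_add_le_of_degree_le (natDegree_add_le_of_degree_le
          (natDegree_add_le_of_degree_le ?_ ?_) ?_) ?_
        · exact (natDegree_C_mul_X_pow_le _ _).trans (by omega)
        · exact (natDegree_C_mul_X_pow_le _ _).trans (by omega)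
        · exact (natDegree_C_mul_X_pow_le _ _).trans (by omega)
        · exact natDegree_C_mul_X_pow_le _ _
      have hlt : s * s * s < q ^ (2 * m) := by
        have h1 : q ^ (2 * m) = s * s * s * s := by
          rw [hs, hn, ← pow_add, ← pow_add, ← pow_add]
          congr 1
          ring
        rw [h1]
        exact lt_mul_of_one_lt_right (by positivity) (by omega)
      omega
  have i1 : s < s * s := lt_mul_of_one_lt_right (by omega) (by omega)
  have i2 : s * s < s * s * s := lt_mul_of_one_lt_right (by positivity) (by omega)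
  have hb0' : B0 = 0 := by
    have h := congrArg (fun f : K[X] => f.coeff 1) hpol
    simp only [coeff_add, coeff_C_mul, coeff_X_pow, coeff_zero] at h
    rw [if_pos trivial, if_neg (by omega), if_neg (by omega), if_neg (by omega)] at h
    simpa using h
  have hb1' : B1 = 0 := by
    have h := congrArg (fun f : K[X] => f.coeff s) hpol
    simp only [coeff_add, coeff_C_mul, coeff_X_pow, coeff_zero] at h
    rw [if_neg (by omega), if_pos trivial, if_neg (by omega), if_neg (by omega)] at h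
    simpa using h
  have hφa0 : φ a ≠ 0 := fun h => ha0 (φ.toRingHom.injective (by simpa using h))
  have hφφb0 : φ (φ b) ≠ 0 := by
    intro h
    apply hb0
    have h1 : φ (φ (φ (φ b))) = 0 := by rw [h, map_zero, map_zero]
    rwa [h4] at h1
  have hc1 : c' * ka = ka := by
    have h := (mul_eq_zero.1 hb0').resolve_left (mul_ne_zero ha0 hφa0)
    exact (sub_eq_zero.1 h).symm
  have hφka : φ ka = ka := by
    have h := (mul_eq_zero.1 hb1').resolve_left (mul_ne_zero hφa0 hφφb0)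
    rw [hc1] at h
    exact sub_eq_zero.1 h
  have hka2 : ka ^ 2 = 1 := by
    have h1 : ka * φ (φ ka) = 1 := by
      rw [hka, map_pow, map_pow, ← mul_pow, hnuN, one_pow]
    rw [hφka, hφka] at h1
    rw [pow_two, h1]
  have hfin' : lam ^ ((1 + s) * (2 * (2 * d))) = 1 := by
    have h1 : nu = lam ^ (1 + s) := by rw [hnu, pow_add, pow_one, ← hφ]
    rw [pow_mul, ← h1, mul_comm 2 (2 * d), pow_mul, ← hka, hka2]
  exact hcop2 d (hcop2 (2 * d) (hcop1 _ (hdvd _ hfin')))

end Pool.Agent.Eng.H9
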