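import Pool.Agent.Helper6_Eng.Stmts

/-!
# SCEN: central isometries are scalars.  SCM: the center of `Sp(2n,F)`.
-/

set_option autoImplicit false

namespace Pool.Agent.Eng.H9

open Matrix

section
variable {F V : Type} [Field F] [AddCommGroup V] [Module F V]

/-- a linear map for which all vectors are eigenvectors is a scalar -/
theorem scal_of_eig [FiniteDimensional F V] (f : V →ₗ[F] V) (h : ∀ u, u ≠ 0 → ∃ c : F, f u = c • u) :
    ∃ c : F, ∀ v, f v = c • v := by
  obtain ⟨a, ha⟩ := LinearMap.exists_eq_smul_id_of_forall_notLinearIndependent (f := f) (by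
    intro v hv
    rw [LinearIndependent.pair_iff] at hv
    by_cases h0 : v = 0
    · have := hv 1 0 (by simp [h0])
      exact one_ne_zero this.1
    · obtain ⟨c, hc⟩ := h v h0
      have := hv c (-1) (by rw [hc]; simp)
      exact one_ne_zero (neg_eq_zero.mp this.2))
  refine ⟨a, fun v => ?_⟩
  rw [ha]
  simp

theorem symp_swap (ω : V →ₗ[F] V →ₗ[F] F) (h : ∀ v, ω v v = 0) (u v : V) : ω u v = - ω v u := by
  have h1 := h (u + v)
  simp only [map_add, LinearMap.add_apply, h u, h v] at h1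
  linear_combination h1

/-- symplectic transvections -/
def tv (ω : V →ₗ[F] V →ₗ[F] F) (h : ∀ v, ω v v = 0) (u : V) : V ≃ₗ[F] V where
  toFun v := v + (ω v u) • u
  map_add' a b := by
    rw [map_add, LinearMap.add_apply, add_smul]
    abel
  map_smul' c a := by
    rw [map_smul, LinearMap.smul_apply, RingHom.id_apply, smul_add, smul_eq_mul, mul_smul]
  invFun v := v - (ω v u) • u
  left_inv v := by
    simp only [map_add, map_smul, LinearMap.add_apply, LinearMap.smul_apply, h u, smul_zero,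
      add_zero]
    abel
  right_inv v := by
    simp only [map_sub, map_smul, LinearMap.sub_apply, LinearMap.smul_apply, h u, smul_zero,
      sub_zero]
    abel

theorem tv_mem (ω : V →ₗ[F] V →ₗ[F] F) (h : ∀ v, ω v v = 0) (u : V) : tv ω h u ∈ SpV ω := by
  intro a b
  change ω (a + (ω a u) • u) (b + (ω b u) • u) = ω a b
  simp only [map_add, map_smul, LinearMap.add_apply, LinearMap.smul_apply, h u, smul_zero,
    add_zero, smul_eq_mul]
  rw [symp_swap ω h u b]
  ring

end

theorem scen : SpCenterStmt := by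
  intro F V _ _ _ _ ω hω g hg
  apply scal_of_eig ((g : V ≃ₗ[F] V) : V →ₗ[F] V)
  intro u hu
  rw [Subgroup.mem_center_iff] at hg
  have h1 := hg ⟨tv ω hω.1 u, tv_mem ω hω.1 u⟩
  have h2 : ∀ v, (g : V ≃ₗ[F] V) v + (ω ((g : V ≃ₗ[F] V) v) u) • u =
      (g : V ≃ₗ[F] V) (v + (ω v u) • u) := by
    intro v
    have h3 := congrArg (fun k : ↥(SpV ω) => (k : V ≃ₗ[F] V) v) h1
    exact h3
  have h4 : ∃ v, ω v u ≠ 0 := by
    by_contra hcon
    push Not at hcon
    refine hu (hω.2 u fun v => ?_)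
    rw [symp_swap ω hω.1, hcon v, neg_zero]
  obtain ⟨v, hv⟩ := h4
  have h5 := h2 v
  rw [map_add, map_smul] at h5
  have h6 := add_left_cancel h5
  refine ⟨(ω v u)⁻¹ * ω ((g : V ≃ₗ[F] V) v) u, ?_⟩
  change (g : V ≃ₗ[F] V) u = _
  rw [mul_smul, h6, smul_smul, inv_mul_cancel₀ hv, one_smul]

theorem dot_J (F : Type) [Field F] (n : ℕ) (u : Fin n ⊕ Fin n → F) :
    u ⬝ᵥ (J (Fin n) F *ᵥ u) = 0 := by
  rw [J, fromBlocks_mulVec, dotProduct, Fintype.sum_sum_type]
  simp only [Sum.elim_inl, Sum.elim_inr, zero_mulVec, neg_mulVec, one_mulVec, zero_add, add_zero,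
    Pi.neg_apply, Function.comp_apply, mul_neg, Finset.sum_neg_distrib]
  rw [neg_add_eq_zero]
  exact Finset.sum_congr rfl fun i _ => mul_comm _ _

/-- symplectic transvections, as matrices -/
theorem tvm_mem (F : Type) [Field F] (n : ℕ) (u : Fin n ⊕ Fin n → F) :
    (1 + vecMulVec u (J (Fin n) F *ᵥ u)) ∈ symplecticGroup (Fin n) F := by
  rw [SymplecticGroup.mem_iff']
  rw [transpose_add, transpose_one, transpose_vecMulVec]
  have h1 : vecMulVec (J (Fin n) F *ᵥ u) u * J (Fin n) F =
      - vecMulVec (J (Fin n) F *ᵥ u) (J (Fin n) F *ᵥ u) := by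
    rw [vecMulVec_mul, ← vecMulVec_neg, ← neg_mulVec, ← J_transpose, mulVec_transpose]
  have h2 : J (Fin n) F * vecMulVec u (J (Fin n) F *ᵥ u) =
      vecMulVec (J (Fin n) F *ᵥ u) (J (Fin n) F *ᵥ u) := by
    rw [mul_vecMulVec]
  have h3 : vecMulVec (J (Fin n) F *ᵥ u) u * J (Fin n) F *
      vecMulVec u (J (Fin n) F *ᵥ u) = 0 := by
    rw [Matrix.mul_assoc, h2, vecMulVec_mul_vecMulVec, dot_J]
    simp
  rw [add_mul, one_mul, add_mul, mul_add, mul_one, mul_add, mul_one, h3, h1, h2]
  abel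

/-- The center of `Sp(2n,F)`: central elements commute with symplectic transvections. -/
theorem scm : SpCenterMatStmt := by
  intro F _ n g
  constructor
  · intro hg
    rw [Subgroup.mem_center_iff] at hg
    have h1 : ∀ u : Fin n ⊕ Fin n → F, u ≠ 0 → ∃ c : F,
        Matrix.mulVecLin (g : Matrix (Fin n ⊕ Fin n) (Fin n ⊕ Fin n) F) u = c • u := by
      intro u hu
      have h2 := congrArg (fun k : Sp n F => (k : Matrix (Fin n ⊕ Fin n) (Fin n ⊕ Fin n) F))
        (hg ⟨_, tvm_mem F n u⟩)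
      have h3 : (1 + vecMulVec u (J (Fin n) F *ᵥ u)) *
          (g : Matrix (Fin n ⊕ Fin n) (Fin n ⊕ Fin n) F) =
          (g : Matrix (Fin n ⊕ Fin n) (Fin n ⊕ Fin n) F) *
          (1 + vecMulVec u (J (Fin n) F *ᵥ u)) := h2
      rw [add_mul, mul_add, one_mul, mul_one, vecMulVec_mul, mul_vecMulVec] at h3
      have h4 := add_left_cancel h3
      have h5 : ∃ j, (J (Fin n) F *ᵥ u) j ≠ 0 := by
        by_contra hcon
        push Not at hcon
        have h6 : J (Fin n) F *ᵥ u = 0 := funext hcon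
        have h7 := congrArg (fun v => J (Fin n) F *ᵥ v) h6
        simp only [mulVec_mulVec, J_squared, mulVec_zero, neg_mulVec, one_mulVec] at h7
        exact hu (neg_eq_zero.mp h7)
      obtain ⟨j, hj⟩ := h5
      refine ⟨((J (Fin n) F *ᵥ u) ᵥ* (g : Matrix (Fin n ⊕ Fin n) (Fin n ⊕ Fin n) F)) j *
        ((J (Fin n) F *ᵥ u) j)⁻¹, ?_⟩
      funext i
      have h8 := congrFun (congrFun h4 i) j
      rw [vecMulVec_apply, vecMulVec_apply] at h8
      rw [mulVecLin_apply, Pi.smul_apply, smul_eq_mul]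
      field_simp
      rw [← h8]
      ring
    obtain ⟨c, hc⟩ := scal_of_eig _ h1
    have h2 : (g : Matrix (Fin n ⊕ Fin n) (Fin n ⊕ Fin n) F) = c • 1 := by
      apply Matrix.ext_of_mulVec_single
      intro i
      have h3 := hc (Pi.single i 1)
      rw [mulVecLin_apply] at h3
      rw [h3, smul_mulVec, one_mulVec]
    rcases Nat.eq_zero_or_pos n with hn | hn
    · subst hn
      left
      exact Subsingleton.elim _ _
    · have h3 := SymplecticGroup.mem_iff.mp g.2
      rw [h2] at h3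
      simp only [transpose_smul, transpose_one, smul_mul_assoc, one_mul, mul_smul_comm,
        mul_one] at h3
      have h4 := congrFun (congrFun h3 (Sum.inr ⟨0, hn⟩)) (Sum.inl ⟨0, hn⟩)
      simp only [Matrix.smul_apply, J, fromBlocks_apply₂₁, one_apply_eq, smul_eq_mul, mul_one] at h4
      have h5 : (c - 1) * (c + 1) = 0 := by linear_combination h4
      rcases mul_eq_zero.mp h5 with h6 | h6
      · left
        rw [h2, sub_eq_zero.mp h6, one_smul]
      · right
        rw [h2, eq_neg_of_add_eq_zero_left h6, neg_smul, one_smul]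
  · rintro (h | h)
    · have : g = 1 := Subtype.ext h
      rw [this]
      exact Subgroup.one_mem _
    · rw [Subgroup.mem_center_iff]
      intro k
      apply Subtype.ext
      change (k : Matrix (Fin n ⊕ Fin n) (Fin n ⊕ Fin n) F) *
        (g : Matrix (Fin n ⊕ Fin n) (Fin n ⊕ Fin n) F) =
        (g : Matrix (Fin n ⊕ Fin n) (Fin n ⊕ Fin n) F) *
        (k : Matrix (Fin n ⊕ Fin n) (Fin n ⊕ Fin n) F)
      rw [h, mul_neg, neg_mul, one_mul, mul_one]

end Pool.Agent.Eng.H9
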